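import Pool.Agent.Helper57.QZ.Stmts2

set_option autoImplicit false

namespace Pool.Agent.Helper57.QZ

open MeasureTheory Set Filter Topology

theorem QBaux_pos (y : ℕ) (σ : ℝ) (p : Pr y) : 0 < aa σ p := by
  have hp : (p : ℕ).Prime := Nat.prime_of_mem_primesBelow p.2
  exact Real.rpow_pos_of_pos (by exact_mod_cast hp.pos) _

theorem QBaux_log (y : ℕ) (p : Pr y) : 0 ≤ Real.log ((p : ℕ) : ℝ) := by
  have hp : (p : ℕ).Prime := Nat.prime_of_mem_primesBelow p.2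
  exact Real.log_nonneg (by exact_mod_cast hp.one_le)

theorem qb_of (h1 : ST_SM1) (h5 : ST_SM5) (h2 : ST_VM2) (h3 : ST_VM3) : ST_QB := by
  intro ε hε η hη
  obtain ⟨C, hC⟩ := h1 ε hε
  obtain ⟨c, z1, hz1, hc, hom⟩ := h5
  obtain ⟨hε0, _⟩ := hε
  obtain ⟨hη0, _⟩ := hη
  set K : ℝ := max C 0 with hK
  have hK0 : 0 ≤ K := le_max_right _ _
  have hCK : C ≤ K := le_max_left _ _
  have hlim : Tendsto (fun z : ℝ => K * (2 / η ^ 2 + 16 / η) *
      (Real.log z ^ 2 / (z ^ ε) ^ 2)) atTop (𝓝 0) := by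
    have h := ((isLittleO_log_rpow_atTop hε0).pow (n := 2) two_pos).tendsto_div_nhds_zero
    simpa using h.const_mul (K * (2 / η ^ 2 + 16 / η))
  have hev : ∀ᶠ z : ℝ in atTop, K * (2 / η ^ 2 + 16 / η) *
      (Real.log z ^ 2 / (z ^ ε) ^ 2) < 1 / 4 := hlim.eventually_lt_const (by norm_num)
  obtain ⟨z2, hz2⟩ := eventually_atTop.1 hev
  refine ⟨max (max z1 z2) (Real.exp (1 / c)), fun y σ z hσ hz hzy => ?_⟩
  have hzz1 : z1 ≤ z := le_trans (le_trans (le_max_left _ _) (le_max_left _ _)) hz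
  have hzz2 : z2 ≤ z := le_trans (le_trans (le_max_right _ _) (le_max_left _ _)) hz
  have hze : Real.exp (1 / c) ≤ z := le_trans (le_max_right _ _) hz
  have hz0 : 0 < z := by linarith
  have hlog : 1 / c ≤ Real.log z := (Real.le_log_iff_exp_le hz0).2 hze
  have hom1 : 1 ≤ omy y σ (z ^ σ) := by
    have := hom y σ z ⟨by linarith [hσ.1], hσ.2⟩ hzz1 hzy
    have h4 : 0 ≤ z ^ (1 - σ) := (Real.rpow_pos_of_pos hz0 _).le
    have h6 : 1 ≤ c * Real.log z := by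
      calc (1 : ℝ) = c * (1 / c) := by field_simp
        _ ≤ c * Real.log z := mul_le_mul_of_nonneg_left hlog hc.le
    nlinarith [mul_nonneg hc.le h4]
  obtain ⟨hS, hD⟩ := hC y σ z hσ (by linarith)
  set G : ℝ := Real.log z ^ 2 / (z ^ ε) ^ 2 with hG
  have hGe : z ^ (-(2 * ε)) * Real.log z ^ 2 = G := by
    rw [hG, Real.rpow_neg hz0.le, mul_comm 2 ε, Real.rpow_mul hz0.le]
    have : (z ^ ε) ^ (2 : ℝ) = (z ^ ε) ^ 2 := by
      exact_mod_cast Real.rpow_natCast (z ^ ε) 2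
    rw [this]
    ring
  have hG0 : 0 ≤ G := by positivity
  have hCG : C * z ^ (-(2 * ε)) * Real.log z ^ 2 ≤ K * G := by
    rw [mul_assoc, hGe]
    exact mul_le_mul_of_nonneg_right hCK hG0
  have hx : ∀ p : Pr y, 0 < z ^ σ * aa σ p := fun p =>
    mul_pos (Real.rpow_pos_of_pos hz0 _) (QBaux_pos y σ p)
  have hv : ∀ p : Pr y, vv (z ^ σ * aa σ p) ≤ min 1 (5 / (z ^ σ * aa σ p) ^ 2) := fun p =>
    le_min (h3.1 _).2.2.1 (h2 _ (hx p)).2
  have hv0 : ∀ p : Pr y, 0 ≤ vv (z ^ σ * aa σ p) := fun p => (h3.1 _).2.1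
  have t1 : ∑ p : Pr y, aa σ p ^ 2 * vv (z ^ σ * aa σ p) ≤ K * G := by
    refine le_trans (Finset.sum_le_sum fun p _ => ?_) (hS.trans hCG)
    have hl := QBaux_log y p
    have h7 : aa σ p ^ 2 ≤ aa σ p ^ 2 * (1 + Real.log ((p : ℕ) : ℝ)) ^ 2 := by
      have : (1 : ℝ) ≤ (1 + Real.log ((p : ℕ) : ℝ)) ^ 2 := by nlinarith
      nlinarith [sq_nonneg (aa σ p)]
    exact mul_le_mul h7 (hv p) (hv0 p) (by positivity)
  have t3 : ∑ p : Pr y, (aa σ p * Real.log p) ^ 2 * vv (z ^ σ * aa σ p) ≤ K * G := by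
    refine le_trans (Finset.sum_le_sum fun p _ => ?_) (hS.trans hCG)
    have hl := QBaux_log y p
    have h7 : (aa σ p * Real.log ((p : ℕ) : ℝ)) ^ 2 ≤
        aa σ p ^ 2 * (1 + Real.log ((p : ℕ) : ℝ)) ^ 2 := by
      rw [mul_pow]
      refine mul_le_mul_of_nonneg_left ?_ (sq_nonneg _)
      exact pow_le_pow_left₀ hl (by linarith) 2
    exact mul_le_mul h7 (hv p) (hv0 p) (by positivity)
  have t2 : ∑ p : Pr y, 16 * aa σ p ^ 2 * (1 - rr (z ^ σ * aa σ p)) ≤ 16 * (K * G) := by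
    have h8 : ∑ p : Pr y, 16 * aa σ p ^ 2 * (1 - rr (z ^ σ * aa σ p)) ≤
        16 * ∑ p : Pr y, aa σ p ^ 2 * min 1 (2 / (z ^ σ * aa σ p)) := by
      rw [Finset.mul_sum]
      refine Finset.sum_le_sum fun p _ => ?_
      have h9 : 1 - rr (z ^ σ * aa σ p) ≤ min 1 (2 / (z ^ σ * aa σ p)) :=
        le_min (by linarith [(h3.2 _ (hx p).le).1]) (h2 _ (hx p)).1
      rw [mul_assoc]
      exact mul_le_mul_of_nonneg_left (mul_le_mul_of_nonneg_left h9 (sq_nonneg _)) (by norm_num)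
    exact h8.trans (mul_le_mul_of_nonneg_left (hD.trans hCG) (by norm_num))
  refine ⟨hom1, ?_⟩
  have hη2 : 0 < η ^ 2 := by positivity
  have b1 : (∑ p : Pr y, aa σ p ^ 2 * vv (z ^ σ * aa σ p)) / η ^ 2 ≤ K * G / η ^ 2 :=
    div_le_div_of_nonneg_right t1 hη2.le
  have b2 : (∑ p : Pr y, 16 * aa σ p ^ 2 * (1 - rr (z ^ σ * aa σ p))) / η ≤
      16 * (K * G) / η := div_le_div_of_nonneg_right t2 hη0.le
  have hKG : 0 ≤ K * G := mul_nonneg hK0 hG0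
  have b3 : (∑ p : Pr y, (aa σ p * Real.log p) ^ 2 * vv (z ^ σ * aa σ p)) /
      (η * omy y σ (z ^ σ)) ^ 2 ≤ K * G / η ^ 2 := by
    have h10 : η ^ 2 ≤ (η * omy y σ (z ^ σ)) ^ 2 :=
      pow_le_pow_left₀ hη0.le (by nlinarith) 2
    exact div_le_div₀ hKG t3 hη2 h10
  have hfin := hz2 z hzz2
  have e : K * (2 / η ^ 2 + 16 / η) * G = K * G / η ^ 2 + 16 * (K * G) / η + K * G / η ^ 2 := by
    ring
  rw [← hG, e] at hfin
  linarith

end Pool.Agent.Helper57.QZ
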